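import Pool.Agent.PLX.StmtsA

set_option autoImplicit false

namespace Pool.Agent.PLX.H60

open Module

theorem fif : FifStmt := by
  intro B _ _ Q a x hB hQ hx
  have hE := eig_adjoin hQ
  have hmap : Algebra.adjoin ℚ (Prod.snd '' Q) =
      (Algebra.adjoin ℚ Q).map (AlgHom.snd ℚ (Module.End ℚ B) ℝ) := by
    rw [AlgHom.map_adjoin]
    rfl
  have key : ∀ w ∈ Algebra.adjoin ℚ (Prod.snd '' Q), w * a x ∈ LinearMap.range a := by
    intro w hw
    rw [hmap] at hw
    obtain ⟨q, hq, rfl⟩ := Subalgebra.mem_map.1 hw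
    exact ⟨q.1 x, hE q hq x⟩
  let L : (Algebra.adjoin ℚ (Prod.snd '' Q)) →ₗ[ℚ] LinearMap.range a :=
    { toFun := fun w => ⟨(w : ℝ) * a x, key w w.2⟩
      map_add' := fun u v => by
        apply Subtype.ext
        simp [add_mul]
      map_smul' := fun c u => by
        apply Subtype.ext
        simp }
  have hL : Function.Injective L := by
    intro u v huv
    have h1 : (u : ℝ) * a x = (v : ℝ) * a x := congrArg Subtype.val huv
    exact Subtype.ext (mul_right_cancel₀ hx h1)
  have hfin : FiniteDimensional ℚ (Algebra.adjoin ℚ (Prod.snd '' Q)) :=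
    FiniteDimensional.of_injective L hL
  refine ⟨hfin, ?_⟩
  exact (LinearMap.finrank_le_finrank_of_injective hL).trans (LinearMap.finrank_range_le a)

end Pool.Agent.PLX.H60
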